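import Pool.Agent.N939.ME.Stm

/-!
PROJECT ME, step ME1 (helper692): the hat chain and the forward operator.
-/

set_option autoImplicit false
set_option linter.unusedSectionVars false
open MeasureTheory ProbabilityTheory Filter Topology

namespace Pool.Agent.N692.ME

open Pool.Agent.N939.ME

theorem Qh_apply {S : Type} [MeasurableSpace S] (Q : Kernel S S) [IsMarkovKernel Q]
    (r : ℝ) (x : S) : Qh Q (r, x) = (Q x).map (Prod.mk r) := by
  unfold Qh
  rw [Kernel.prod_apply, Kernel.deterministic_apply, Kernel.comap_apply, Measure.dirac_prod]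

theorem TT_hat {S : Type} [MeasurableSpace S] (Q : Kernel S S) [IsMarkovKernel Q]
    (h : ℝ × S → ℝ) (r : ℝ) (x : S) : TT (Qh Q) h (r, x) = ∫ y, h (r, y) ∂(Q x) := by
  unfold TT
  rw [Qh_apply, (measurableEmbedding_prodMk_left r).integral_map]

theorem bind_hat {S : Type} [MeasurableSpace S] (Q : Kernel S S) [IsMarkovKernel Q]
    (ν : Measure S) [IsProbabilityMeasure ν] (hQ : ν.bind Q = ν) :
    (nuh ν).bind (Qh Q) = nuh ν := by
  ext s hs
  rw [Measure.bind_apply hs (Kernel.aemeasurable _)]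
  have h1 : ∀ p : ℝ × S, Qh Q p s = Q p.2 (Prod.mk p.1 ⁻¹' s) := by
    rintro ⟨r, x⟩
    rw [Qh_apply, Measure.map_apply measurable_prodMk_left hs]
  unfold nuh
  rw [lintegral_prod _ ((Kernel.measurable_coe _ hs).aemeasurable), Measure.prod_apply hs]
  refine lintegral_congr fun r => ?_
  have h2 : ∀ x : S, Qh Q (r, x) s = Q x (Prod.mk r ⁻¹' s) := fun x => h1 (r, x)
  simp only [h2]
  have h3 := Measure.bind_apply (m := ν) (f := Q) (measurable_prodMk_left (x := r) hs)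
    (Kernel.aemeasurable Q)
  rw [hQ] at h3
  exact h3.symm

theorem hat : S_HAT := by
  intro S _ Q _ ν _ hQ
  exact ⟨TT_hat Q, bind_hat Q ν hQ⟩

section TT

variable {S : Type} [MeasurableSpace S] {Q : Kernel S S} [IsMarkovKernel Q] {ν : Measure S}
  [IsProbabilityMeasure ν]

theorem TT_meas {h : S → ℝ} (hh : Measurable h) : Measurable (TT Q h) :=
  (hh.stronglyMeasurable.integral_kernel).measurable

theorem ae_ae (hQ : ν.bind Q = ν) {p : S → Prop} (h : ∀ᵐ x ∂ν, p x) :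
    ∀ᵐ x ∂ν, ∀ᵐ y ∂(Q x), p y := by
  rw [← hQ] at h
  exact Measure.ae_ae_of_ae_comp h

theorem TT_int (hQ : ν.bind Q = ν) {h : S → ℝ} (hh : Integrable h ν) :
    Integrable (TT Q h) ν := by
  have h1 : Integrable h ((Q ∘ₖ Kernel.const Unit ν) ()) := by
    rw [Kernel.comp_apply, Kernel.const_apply, hQ]; exact hh
  have h2 := h1.integral_comp
  rw [Kernel.const_apply] at h2
  exact h2

theorem TT_integral (hQ : ν.bind Q = ν) {h : S → ℝ} (hh : Integrable h ν) :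
    ∫ x, TT Q h x ∂ν = ∫ x, h x ∂ν := by
  have h1 : Integrable h ((Q ∘ₖ Kernel.const Unit ν) ()) := by
    rw [Kernel.comp_apply, Kernel.const_apply, hQ]; exact hh
  have h2 := Kernel.integral_comp h1
  rw [Kernel.comp_apply, Kernel.const_apply, hQ] at h2
  exact h2.symm

theorem TT_aeint (hQ : ν.bind Q = ν) {h : S → ℝ} (hh : Integrable h ν) :
    ∀ᵐ x ∂ν, Integrable h (Q x) := by
  apply Measure.ae_integrable_of_integrable_comp
  rw [hQ]; exact hh

theorem TT_abs (h : S → ℝ) (x : S) : |TT Q h x| ≤ TT Q (fun y => |h y|) x :=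
  abs_integral_le_integral_abs

theorem TT_congr (hQ : ν.bind Q = ν) {h h' : S → ℝ} (hh : h =ᵐ[ν] h') :
    TT Q h =ᵐ[ν] TT Q h' := by
  filter_upwards [ae_ae hQ hh] with x hx
  exact integral_congr_ae hx

theorem TT_mono (hQ : ν.bind Q = ν) {h h' : S → ℝ} (hh : Integrable h ν)
    (hh' : Integrable h' ν) (hle : ∀ᵐ x ∂ν, h x ≤ h' x) : ∀ᵐ x ∂ν, TT Q h x ≤ TT Q h' x := by
  filter_upwards [ae_ae hQ hle, TT_aeint hQ hh, TT_aeint hQ hh'] with x h1 h2 h3
  exact integral_mono_ae h2 h3 h1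

theorem TT_add (hQ : ν.bind Q = ν) {h h' : S → ℝ} (hh : Integrable h ν)
    (hh' : Integrable h' ν) :
    TT Q (fun y => h y + h' y) =ᵐ[ν] fun x => TT Q h x + TT Q h' x := by
  filter_upwards [TT_aeint hQ hh, TT_aeint hQ hh'] with x h2 h3
  exact integral_add h2 h3

theorem sq_int_le (μ : Measure S) [IsProbabilityMeasure μ] {h : S → ℝ} (hh : MemLp h 2 μ) :
    (∫ y, h y ∂μ) ^ 2 ≤ ∫ y, h y ^ 2 ∂μ := by
  have h1 := variance_nonneg h μ
  rw [variance_eq_sub hh] at h1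
  have h2 : ∫ y, (h ^ 2) y ∂μ = ∫ y, h y ^ 2 ∂μ := rfl
  have h3 := h2
  simp only [Pi.pow_apply] at h1
  linarith

theorem TT_ael2 (hQ : ν.bind Q = ν) {h : S → ℝ} (hh : MemLp h 2 ν) :
    ∀ᵐ x ∂ν, MemLp h 2 (Q x) := by
  have h0 : Integrable h ν := hh.integrable (by norm_num)
  filter_upwards [TT_aeint hQ h0, TT_aeint hQ hh.integrable_sq] with x h1 h2
  exact (memLp_two_iff_integrable_sq h1.1).2 h2

theorem TT_sq (hQ : ν.bind Q = ν) {h : S → ℝ} (hh : MemLp h 2 ν) :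
    ∀ᵐ x ∂ν, TT Q h x ^ 2 ≤ TT Q (fun y => h y ^ 2) x := by
  filter_upwards [TT_ael2 hQ hh] with x h1
  exact sq_int_le (Q x) h1

theorem TT_l2 (hQ : ν.bind Q = ν) {h : S → ℝ} (hh : MemLp h 2 ν) :
    MemLp (TT Q h) 2 ν := by
  have h0 : Integrable h ν := hh.integrable (by norm_num)
  have h1 := (TT_int hQ h0).1
  rw [memLp_two_iff_integrable_sq h1]
  refine (TT_int hQ hh.integrable_sq).mono (h1.pow 2) ?_
  filter_upwards [TT_sq hQ hh] with x hx
  rw [Real.norm_eq_abs, Real.norm_eq_abs, abs_of_nonneg (sq_nonneg _)]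
  exact hx.trans (le_abs_self _)

theorem TT_l2le (hQ : ν.bind Q = ν) {h : S → ℝ} (hh : MemLp h 2 ν) :
    ∫ x, TT Q h x ^ 2 ∂ν ≤ ∫ x, h x ^ 2 ∂ν := by
  rw [← TT_integral hQ hh.integrable_sq]
  exact integral_mono_ae (TT_l2 hQ hh).integrable_sq (TT_int hQ hh.integrable_sq) (TT_sq hQ hh)

end TT

theorem tt : S_TT := by
  intro S _ Q _ ν _ hQ
  exact ⟨fun h hh => TT_meas hh,
    fun h hh => ⟨TT_int hQ hh, TT_integral hQ hh, TT_aeint hQ hh, ae_of_all _ (TT_abs h)⟩,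
    fun h hh => ⟨TT_l2 hQ hh, TT_l2le hQ hh, TT_ael2 hQ hh, TT_sq hQ hh⟩,
    fun h h' hh => TT_congr hQ hh,
    fun h h' h1 h2 h3 => TT_mono hQ h1 h2 h3,
    fun h h' h1 h2 => TT_add hQ h1 h2⟩

end Pool.Agent.N692.ME
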